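import Mathlib
import Pool.Agent.Helper43.Ah.Good

/-!
Thin strips: several multiplicities, from the statement for one multiplicity.
-/

set_option autoImplicit false
set_option linter.unusedSectionVars false

namespace Pool.Agent.Helper39.Ah

open Finset Pool.Agent.Lead.Sh Pool.Agent.Helper43.Ah

lemma enum2 (A : Finset ℕ) : ∃ e idx : ℕ → ℕ, (∀ c < A.card, e c ∈ A ∧ idx (e c) = c) ∧
    (∀ k ∈ A, idx k < A.card ∧ e (idx k) = k) := by
  classical
  set f := A.orderIsoOfFin rfl with hf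
  set e : ℕ → ℕ := fun c => if h : c < A.card then ((f ⟨c, h⟩ : A) : ℕ) else 0 with hedef
  set idx : ℕ → ℕ := fun k => if h : k ∈ A then ((f.symm ⟨k, h⟩ : Fin A.card) : ℕ) else 0
    with hidef
  have he : ∀ c (hc : c < A.card), e c = ((f ⟨c, hc⟩ : A) : ℕ) := by
    intro c hc; simp only [hedef]; rw [dif_pos hc]
  have hi : ∀ k (hk : k ∈ A), idx k = ((f.symm ⟨k, hk⟩ : Fin A.card) : ℕ) := by
    intro k hk; simp only [hidef]; rw [dif_pos hk]
  refine ⟨e, idx, ?_, ?_⟩
  · intro c hc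
    have h1 : e c ∈ A := by rw [he c hc]; exact (f ⟨c, hc⟩).2
    refine ⟨h1, ?_⟩
    rw [hi _ h1]
    have : (⟨e c, h1⟩ : A) = f ⟨c, hc⟩ := Subtype.ext (he c hc)
    rw [this, OrderIso.symm_apply_apply]
  · intro k hk
    have h1 : idx k < A.card := by rw [hi k hk]; exact (f.symm ⟨k, hk⟩).2
    refine ⟨h1, ?_⟩
    rw [he _ h1]
    have : (⟨idx k, h1⟩ : Fin A.card) = f.symm ⟨k, hk⟩ := Fin.ext (hi k hk)
    rw [this, OrderIso.apply_symm_apply]

lemma enum_sum {A : Finset ℕ} {e idx : ℕ → ℕ} (h1 : ∀ c < A.card, e c ∈ A ∧ idx (e c) = c)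
    (h2 : ∀ k ∈ A, idx k < A.card ∧ e (idx k) = k) (F : ℕ → ℕ) :
    ∑ c ∈ range A.card, F (e c) = ∑ k ∈ A, F k := by
  apply sum_nbij' e idx
  · intro c hc; exact (h1 c (mem_range.1 hc)).1
  · intro k hk; exact mem_range.2 (h2 k hk).1
  · intro c hc; exact (h1 c (mem_range.1 hc)).2
  · intro k hk; exact (h2 k hk).2
  · intro c _; rfl

/-- the statement for one multiplicity -/
def StripOne (TS : ℕ → ℕ → ℕ → ℕ) : Prop :=
  ∀ (μ W δ N : ℕ), 1 ≤ μ → μ + 2 ≤ W → ∀ b : ℕ → ℕ,
    (∀ i < W, ∀ j < W, b i ≤ b j + δ) → (∀ j < W, TS μ W δ ≤ b j) →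
    ∑ j ∈ range W, b j = N * (μ + 1).choose 2 →
    ∃ st zc : ℕ → ℕ, (∀ c < N, st c + zc c < W ∧ zc c ≤ μ) ∧
      ∀ j < W, ∑ c ∈ range N, pat W μ (st c) (zc c) j = b j

lemma strip_set {TS : ℕ → ℕ → ℕ → ℕ} (h : StripOne TS) {μ W δ : ℕ} (hμ : 1 ≤ μ)
    (hW : μ + 2 ≤ W) (A : Finset ℕ) (b : ℕ → ℕ) (hδ : ∀ i < W, ∀ j < W, b i ≤ b j + δ)
    (hT : ∀ j < W, TS μ W δ ≤ b j) (htot : ∑ j ∈ range W, b j = A.card * (μ + 1).choose 2) :
    ∃ st zc : ℕ → ℕ, (∀ k ∈ A, st k + zc k < W ∧ zc k ≤ μ) ∧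
      ∀ j < W, ∑ k ∈ A, pat W μ (st k) (zc k) j = b j := by
  obtain ⟨st, zc, h1, h2⟩ := h μ W δ A.card hμ hW b hδ hT htot
  obtain ⟨e, idx, he, hidx⟩ := enum2 A
  refine ⟨fun k => st (idx k), fun k => zc (idx k), ?_, ?_⟩
  · intro k hk
    exact h1 _ (hidx k hk).1
  · intro j hj
    rw [← h2 j hj, ← enum_sum he hidx]
    apply sum_congr rfl
    intro c hc
    simp only
    rw [(he c (mem_range.1 hc)).2]

lemma pat_zero {W ν j : ℕ} : pat W ν 0 0 j = ν - j := by
  unfold pat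
  by_cases h : j = 0
  · subst h; simp
  · rw [if_neg (by omega), if_neg h, if_neg (by omega)]
    simp

lemma class_data {TS : ℕ → ℕ → ℕ → ℕ} (h : StripOne TS)
    (hTS : ∀ μ μ' W δ δ', μ ≤ μ' → δ ≤ δ' → TS μ W δ ≤ TS μ' W δ') {ν M W : ℕ} (hν : 1 ≤ ν)
    (hνM : ν ≤ M) (hW : M + 2 ≤ W) (A : Finset ℕ) :
    ∃ st zc g : ℕ → ℕ, (∀ k ∈ A, st k + zc k < W ∧ zc k ≤ ν) ∧
      (∀ j < W, ∑ k ∈ A, pat W ν (st k) (zc k) j = g j) ∧
      ∑ j ∈ range W, g j = A.card * (ν + 1).choose 2 ∧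
      ∀ i < W, ∀ j < W, g i ≤ g j + (W * (TS M W 1 + 1) + 1) := by
  classical
  set t := A.card * (ν + 1).choose 2 with ht
  have hWpos : 0 < W := by omega
  have hmono : TS ν W 1 ≤ TS M W 1 := hTS _ _ _ _ _ hνM le_rfl
  by_cases hc : W * (TS ν W 1 + 1) ≤ t
  · have hdm := Nat.div_add_mod t W
    have hmod := Nat.mod_lt t hWpos
    have hdiv : TS ν W 1 + 1 ≤ t / W := by
      rw [Nat.le_div_iff_mul_le hWpos, mul_comm]; exact hc
    set g : ℕ → ℕ := fun j => t / W + (if j < t % W then 1 else 0) with hg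
    have hgle : ∀ j, t / W ≤ g j ∧ g j ≤ t / W + 1 := by
      intro j; simp only [hg]; split_ifs <;> omega
    have hsum : ∑ j ∈ range W, g j = t := by
      simp only [hg]
      rw [sum_add_distrib, sum_const, card_range, smul_eq_mul, ← card_filter]
      have : (range W).filter (fun j => j < t % W) = range (t % W) := by
        ext j; rw [mem_filter, mem_range, mem_range]; omega
      rw [this, card_range]
      exact hdm
    obtain ⟨st, zc, h1, h2⟩ := strip_set h (δ := 1) hν (by omega) A g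
      (by intro i _ j _; have a1 := hgle i; have a2 := hgle j; omega)
      (by intro j _; have a1 := hgle j; omega) hsum
    refine ⟨st, zc, g, h1, h2, hsum, ?_⟩
    intro i _ j _
    have a1 := hgle i
    have a2 := hgle j
    omega
  · have hs := pat_sum (R := W) (ν := ν) (i := 0) (z := 0) (by omega) (by omega)
    have hsum : ∑ j ∈ range W, A.card * (ν - j) = t := by
      rw [← mul_sum, ht, ← hs]
      congr 1
      exact sum_congr rfl (fun j _ => pat_zero.symm)
    refine ⟨fun _ => 0, fun _ => 0, fun j => A.card * (ν - j), ?_, ?_, hsum, ?_⟩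
    · intro k _; exact ⟨by simp only; omega, Nat.zero_le _⟩
    · intro j _
      rw [sum_congr rfl (fun k _ => pat_zero), sum_const, smul_eq_mul]
    · intro i hi j hj
      have : A.card * (ν - i) ≤ t := by
        rw [← hsum]
        exact single_le_sum (f := fun j => A.card * (ν - j)) (fun _ _ => Nat.zero_le _)
          (mem_range.2 hi)
      have h3 : W * (TS ν W 1 + 1) ≤ W * (TS M W 1 + 1) := Nat.mul_le_mul le_rfl (by omega)
      simp only
      omega

/-- the bound of the differences -/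
def DD (TS : ℕ → ℕ → ℕ → ℕ) (M W δ : ℕ) : ℕ := δ + M * (W * (TS M W 1 + 1) + 1)

theorem strip_exact {TS : ℕ → ℕ → ℕ → ℕ} (h : StripOne TS)
    (hTS : ∀ μ μ' W δ δ', μ ≤ μ' → δ ≤ δ' → TS μ W δ ≤ TS μ' W δ') {M W δ : ℕ} (hM : 1 ≤ M)
    (hW : M + 2 ≤ W) (b : ℕ → ℕ) (hδ : ∀ i < W, ∀ j < W, b i ≤ b j + δ)
    (hT : ∀ j < W, M * (TS M W (DD TS M W δ) + DD TS M W δ) ≤ b j)
    (s : Finset ℕ) (mm : ℕ → ℕ) (h1 : ∀ k ∈ s, 1 ≤ mm k) (hmm : ∀ k ∈ s, mm k ≤ M)
    (htot : ∑ k ∈ s, (mm k + 1).choose 2 = ∑ j ∈ range W, b j) :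
    Inj (rowsD W (fun y => b (W - 1 - y))) (rows mm s) := by
  classical
  have hWpos : 0 < W := by omega
  obtain ⟨μ, hμ, hμM, hpig⟩ := pigeon M hM s mm h1 hmm
  set cl : ℕ → Finset ℕ := fun ν => s.filter (fun k => mm k = ν) with hcl
  set D' := DD TS M W δ with hD'
  set B := W * (TS M W 1 + 1) + 1 with hB
  have hDB : D' = δ + M * B := rfl
  have hex : ∀ ν, ∃ st zc g : ℕ → ℕ, 1 ≤ ν → ν ≤ M →
      (∀ k ∈ cl ν, st k + zc k < W ∧ zc k ≤ ν) ∧
      (∀ j < W, ∑ k ∈ cl ν, pat W ν (st k) (zc k) j = g j) ∧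
      ∑ j ∈ range W, g j = (cl ν).card * (ν + 1).choose 2 ∧
      ∀ i < W, ∀ j < W, g i ≤ g j + B := by
    intro ν
    by_cases hν : 1 ≤ ν ∧ ν ≤ M
    · obtain ⟨st, zc, g, hh⟩ := class_data h hTS hν.1 hν.2 hW (cl ν)
      exact ⟨st, zc, g, fun _ _ => hh⟩
    · exact ⟨0, 0, 0, fun a b => absurd ⟨a, b⟩ hν⟩
  choose st zc g hst using hex
  set I := (Icc 1 M).erase μ with hI
  have hIm : ∀ ν ∈ I, 1 ≤ ν ∧ ν ≤ M ∧ ν ≠ μ := by
    intro ν hν
    rw [hI, mem_erase, mem_Icc] at hν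
    exact ⟨hν.2.1, hν.2.2, hν.1⟩
  have hμI : μ ∈ Icc 1 M := mem_Icc.2 ⟨hμ, hμM⟩
  have hIcard : I.card ≤ M := by
    rw [hI, card_erase_of_mem hμI, Nat.card_Icc]; omega
  have hfib : ∀ F : ℕ → ℕ, ∑ k ∈ s, F k = ∑ k ∈ cl μ, F k + ∑ ν ∈ I, ∑ k ∈ cl ν, F k := by
    intro F
    rw [add_sum_erase (Icc 1 M) (fun ν => ∑ k ∈ cl ν, F k) hμI]
    rw [← sum_fiberwise_of_maps_to (g := mm) (t := Icc 1 M)]
    intro k hk
    exact mem_Icc.2 ⟨h1 k hk, hmm k hk⟩
  have hclm : ∀ ν, ∀ k ∈ cl ν, k ∈ s ∧ mm k = ν := fun ν k hk => mem_filter.1 hk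
  have hclsum : ∀ ν, ∑ k ∈ cl ν, (mm k + 1).choose 2 = (cl ν).card * (ν + 1).choose 2 := by
    intro ν
    rw [sum_congr rfl (g := fun _ => (ν + 1).choose 2)]
    · rw [sum_const, smul_eq_mul]
    · intro k hk
      rw [(hclm ν k hk).2]
  set G : ℕ → ℕ := fun j => ∑ ν ∈ I, g ν j with hG
  have hGd : ∀ i < W, ∀ j < W, G i ≤ G j + M * B := by
    intro i hi j hj
    calc G i ≤ ∑ ν ∈ I, (g ν j + B) := sum_le_sum (fun ν hν => by
            obtain ⟨a1, a2, a3⟩ := hIm ν hν
            exact (hst ν a1 a2).2.2.2 i hi j hj)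
      _ = G j + I.card * B := by rw [sum_add_distrib, sum_const, smul_eq_mul]
      _ ≤ G j + M * B := Nat.add_le_add_left (Nat.mul_le_mul hIcard le_rfl) _
  have hGs : ∑ j ∈ range W, G j = ∑ ν ∈ I, (cl ν).card * (ν + 1).choose 2 := by
    simp only [hG]
    rw [sum_comm]
    apply sum_congr rfl
    intro ν hν
    obtain ⟨a1, a2, a3⟩ := hIm ν hν
    exact (hst ν a1 a2).2.2.1
  have htotb : ∑ j ∈ range W, b j = (cl μ).card * (μ + 1).choose 2 + ∑ j ∈ range W, G j := by
    rw [← htot, hfib, hclsum, hGs]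
    congr 1
    exact sum_congr rfl (fun ν _ => hclsum ν)
  -- the lower bound
  have hlow : ∀ j < W, TS M W D' + G j ≤ b j := by
    intro j hj
    have e1 : ∀ i ∈ range W, b i + G j ≤ b j + G i + D' := by
      intro i hi
      rw [mem_range] at hi
      have a1 := hδ i hi j hj
      have a2 := hGd j hj i hi
      omega
    have e2 := sum_le_sum e1
    rw [sum_add_distrib, sum_add_distrib, sum_add_distrib, sum_const, sum_const, sum_const,
      card_range, smul_eq_mul, smul_eq_mul, smul_eq_mul, htotb] at e2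
    have e3 : ∑ i ∈ range W, M * (TS M W D' + D') ≤ ∑ i ∈ range W, b i :=
      sum_le_sum (fun i hi => hT i (mem_range.1 hi))
    rw [sum_const, card_range, smul_eq_mul, ← htot] at e3
    have e4 : M * (W * (TS M W D' + D')) ≤ M * ((cl μ).card * (μ + 1).choose 2) := by
      calc M * (W * (TS M W D' + D')) = W * (M * (TS M W D' + D')) := by ring
        _ ≤ _ := le_trans e3 hpig
    have e5 := Nat.le_of_mul_le_mul_left e4 (by omega)
    have e6 : W * (TS M W D' + G j) ≤ W * b j := by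
      have : W * (TS M W D' + D') + W * G j ≤ W * b j + W * D' := by omega
      rw [Nat.mul_add] at this ⊢
      omega
    exact Nat.le_of_mul_le_mul_left e6 hWpos
  set b' : ℕ → ℕ := fun j => b j - G j with hb'
  have hb'e : ∀ j < W, b' j + G j = b j := by
    intro j hj
    have := hlow j hj
    simp only [hb']; omega
  obtain ⟨st', zc', hs1, hs2⟩ := strip_set h (μ := μ) (W := W) (δ := D') hμ (by omega) (cl μ) b' (by
    intro i hi j hj
    have a1 := hb'e i hi
    have a2 := hb'e j hj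
    have a3 := hδ i hi j hj
    have a4 := hGd j hj i hi
    omega) (by
    intro j hj
    have a1 := hb'e j hj
    have a2 := hlow j hj
    have a3 := hTS μ M W D' D' hμM le_rfl
    omega) (by
    have : ∑ j ∈ range W, b' j + ∑ j ∈ range W, G j = ∑ j ∈ range W, b j := by
      rw [← sum_add_distrib]
      exact sum_congr rfl (fun j hj => hb'e j (mem_range.1 hj))
    omega)
  -- all points
  set S : ℕ → ℕ := fun k => if mm k = μ then st' k else st (mm k) k with hS
  set Z : ℕ → ℕ := fun k => if mm k = μ then zc' k else zc (mm k) k with hZ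
  have hSZ : ∀ k ∈ s, S k + Z k < W ∧ Z k ≤ mm k := by
    intro k hk
    simp only [hS, hZ]
    by_cases hc : mm k = μ
    · rw [if_pos hc, if_pos hc]
      have := hs1 k (mem_filter.2 ⟨hk, hc⟩)
      rw [hc]; exact this
    · rw [if_neg hc, if_neg hc]
      exact (hst (mm k) (h1 k hk) (hmm k hk)).1 k (mem_filter.2 ⟨hk, rfl⟩)
  have hfill : ∀ j < W, b j ≤ ∑ k ∈ s, pat W (mm k) (S k) (Z k) j := by
    intro j hj
    rw [hfib]
    have e1 : ∑ k ∈ cl μ, pat W (mm k) (S k) (Z k) j = b' j := by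
      rw [← hs2 j hj]
      apply sum_congr rfl
      intro k hk
      have hc := (hclm μ k hk).2
      simp only [hS, hZ]
      rw [if_pos hc, if_pos hc, hc]
    have e2 : ∑ ν ∈ I, ∑ k ∈ cl ν, pat W (mm k) (S k) (Z k) j = G j := by
      simp only [hG]
      apply sum_congr rfl
      intro ν hν
      obtain ⟨a1, a2, a3⟩ := hIm ν hν
      rw [← (hst ν a1 a2).2.1 j hj]
      apply sum_congr rfl
      intro k hk
      have hc := (hclm ν k hk).2
      simp only [hS, hZ]
      rw [if_neg (by rw [hc]; exact a3), if_neg (by rw [hc]; exact a3), hc]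
    rw [e1, e2, hb'e j hj]
  obtain ⟨e, idx, he, hidx⟩ := enum2 s
  have hF := fill_inj W s.card (fun c => mm (e c)) (fun c => S (e c)) (fun c => Z (e c)) b
    (fun c hc => (hSZ _ (he c hc).1).1) (fun c hc => (hSZ _ (he c hc).1).2) (by
      intro j hj
      rw [enum_sum he hidx (fun k => pat W (mm k) (S k) (Z k) j)]
      exact hfill j hj)
  refine inj_relabel e ?_ ?_ ?_ hF
  · intro c hc
    exact (he c (mem_range.1 hc)).1
  · intro c hc c' hc' hee
    rw [← (he c (mem_range.1 hc)).2, ← (he c' (mem_range.1 hc')).2, hee]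
  · intro c _; rfl

/-- the bound for the lengths of the rows -/
def T2 (TS : ℕ → ℕ → ℕ → ℕ) (M W δ : ℕ) : ℕ :=
  M * (TS M W (DD TS M W (δ + (M + 1).choose 2)) + DD TS M W (δ + (M + 1).choose 2))

/-- **Thin strips.** -/
theorem strip_good {TS : ℕ → ℕ → ℕ → ℕ} (h : StripOne TS)
    (hTS : ∀ μ μ' W δ δ', μ ≤ μ' → δ ≤ δ' → TS μ W δ ≤ TS μ' W δ') (M W δ : ℕ) (hM : 1 ≤ M)
    (hW : M + 2 ≤ W) (b : ℕ → ℕ) (hδ : ∀ i < W, ∀ j < W, b i ≤ b j + δ)
    (hT : ∀ j < W, T2 TS M W δ ≤ b j) : Good M (rowsD W (fun y => b (W - 1 - y))) := by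
  classical
  intro s0 mm hmm0
  set s := s0.filter (fun k => 0 < mm k) with hs
  have hrows : rows mm s0 = rows mm s := by
    ext r
    rw [mem_rows, mem_rows, hs, mem_filter]
    constructor
    · rintro ⟨a, b⟩; exact ⟨⟨a, by omega⟩, b⟩
    · rintro ⟨⟨a, _⟩, b⟩; exact ⟨a, b⟩
  have hsum0 : ∑ k ∈ s0, (mm k + 1).choose 2 = ∑ k ∈ s, (mm k + 1).choose 2 := by
    rw [hs, sum_filter]
    apply sum_congr rfl
    intro k _
    split_ifs with h1
    · rfl
    · rw [show mm k = 0 by omega]; rfl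
  rw [hrows, hsum0]
  have h1 : ∀ k ∈ s, 1 ≤ mm k := fun k hk => (mem_filter.1 hk).2
  have hmm : ∀ k ∈ s, mm k ≤ M := fun k hk => hmm0 k (mem_filter.1 hk).1
  have hcard : (rowsD W (fun y => b (W - 1 - y))).card = ∑ j ∈ range W, b j := by
    rw [card_rowsD]
    exact sum_range_reflect b W
  rw [hcard]
  constructor
  · intro hT1
    obtain ⟨s', hs', hT1, hT2⟩ := subtotal M _ hM mm s hmm hT1
    obtain ⟨e, he⟩ := Nat.exists_eq_add_of_le hT1
    set b' : ℕ → ℕ := fun j => b j + (if j = 0 then e else 0) with hb'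
    have hb'1 : ∀ j, b j ≤ b' j ∧ b' j ≤ b j + e := by
      intro j; simp only [hb']; split_ifs <;> omega
    have hsb : ∑ j ∈ range W, b' j = ∑ j ∈ range W, b j + e := by
      simp only [hb']
      rw [sum_add_distrib, sum_ite_eq' (range W) 0 (fun _ => e), if_pos (mem_range.2 (by omega))]
    have hI := strip_exact h hTS (δ := δ + (M + 1).choose 2) hM hW b' (by
      intro i hi j hj
      have a1 := hb'1 i
      have a2 := hb'1 j
      have a3 := hδ i hi j hj
      omega) (by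
      intro j hj
      exact le_trans (hT j hj) (hb'1 j).1) s' mm (fun k hk => h1 k (hs' hk))
      (fun k hk => hmm k (hs' hk)) (by rw [he, hsb])
    refine hI.mono ?_ (rows_mono hs')
    intro d hd
    rw [mem_rowsD] at hd ⊢
    exact ⟨hd.1, lt_of_lt_of_le hd.2 (hb'1 _).1⟩
  · intro hT1
    obtain ⟨e, he⟩ := Nat.exists_eq_add_of_le hT1
    set B := s.sup id + 1 with hB
    have hsB : ∀ k ∈ s, k < B := by
      intro k hk
      have : k ≤ s.sup id := le_sup (f := id) hk
      omega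
    set mp : ℕ → ℕ := fun k => if k < B then mm k else 1 with hmp
    set sp := s ∪ Ico B (B + e) with hsp
    have hdj : Disjoint s (Ico B (B + e)) := by
      rw [disjoint_left]
      intro k hk hk2
      rw [mem_Ico] at hk2
      have := hsB k hk
      omega
    have hmps : ∀ k ∈ s, mm k = mp k := by
      intro k hk
      simp only [hmp]
      rw [if_pos (hsB k hk)]
    have hsump : ∑ k ∈ sp, (mp k + 1).choose 2 = ∑ k ∈ s, (mm k + 1).choose 2 + e := by
      rw [hsp, sum_union hdj]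
      congr 1
      · apply sum_congr rfl
        intro k hk
        rw [hmps k hk]
      · rw [sum_congr rfl (g := fun _ => 1)]
        · rw [sum_const, smul_eq_mul, Nat.card_Ico, Nat.add_sub_cancel_left, mul_one]
        · intro k hk
          rw [mem_Ico] at hk
          simp only [hmp]
          rw [if_neg (by omega)]
          rfl
    have hI := strip_exact h hTS (δ := δ + (M + 1).choose 2) hM hW b (by
      intro i hi j hj
      have a3 := hδ i hi j hj
      omega) hT sp mp (by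
      intro k hk
      rcases mem_union.1 hk with hk | hk
      · rw [← hmps k hk]; exact h1 k hk
      · rw [mem_Ico] at hk
        simp only [hmp]
        rw [if_neg (by omega)]) (by
      intro k hk
      rcases mem_union.1 hk with hk | hk
      · rw [← hmps k hk]; exact hmm k hk
      · rw [mem_Ico] at hk
        simp only [hmp]
        rw [if_neg (by omega)]; exact hM) (by rw [hsump, he])
    obtain ⟨P, hP⟩ := hI
    have hInd : Ind (rowsD W (fun y => b (W - 1 - y))) (rows mp sp) := ⟨P, hP.ind (by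
      rw [card_rows, hcard, hsump, he])⟩
    refine hInd.mono subset_rfl ?_
    rw [rows_congr hmps]
    exact rows_mono subset_union_left

end Pool.Agent.Helper39.Ah
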