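import Mathlib
import Pool.Agent.Lead.ShMain

/-!
Exact tiling of the corner `k * x + y < k * A`, `A = K * μ * (μ + 1)`, by cells of size `μ`.
-/

set_option autoImplicit false
set_option linter.unusedSectionVars false

namespace Pool.Agent.Helper39.Ah

open Finset Pool.Agent.Lead.Sh

/-- sets of lattice points tiled by `n` cells of size `μ` -/
inductive Tl (μ : ℕ) : Finset (ℕ × ℕ) → ℕ → Prop
  | empty : Tl μ ∅ 0
  | cell (sf bf : ℕ → ℕ) (hb : ∀ i < μ, ∀ j < μ, bf i = bf j → i = j) :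
      Tl μ (cellD μ μ sf bf) 1
  | glue (w : ℕ × ℕ) (c : ℕ) {D1 D2 : Finset (ℕ × ℕ)} {n1 n2 : ℕ}
      (h1 : ∀ d ∈ D1, wt w d < c) (h2 : ∀ d ∈ D2, c ≤ wt w d)
      (t1 : Tl μ D1 n1) (t2 : Tl μ D2 n2) : Tl μ (D1 ∪ D2) (n1 + n2)

lemma Tl.congr {μ : ℕ} {D D' : Finset (ℕ × ℕ)} {n n' : ℕ} (h : Tl μ D n)
    (hD : ∀ d, d ∈ D' ↔ d ∈ D) (hn : n' = n) : Tl μ D' n' := by
  have : D' = D := Finset.ext hD
  rw [this, hn]
  exact h

theorem Tl.inj {μ : ℕ} {D : Finset (ℕ × ℕ)} {n : ℕ} (h : Tl μ D n) :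
    ∀ a, Inj D (rows (fun _ => μ) (Ico a (a + n))) := by
  induction h with
  | empty => intro a; exact inj_empty _
  | cell sf bf hb =>
    intro a
    refine (cell_inj μ μ a sf bf hb).mono subset_rfl ?_
    intro r hr
    rw [mem_cellR] at hr
    rw [mem_rows, mem_Ico]
    exact ⟨by omega, hr.2.2⟩
  | @glue w c D1 D2 n1 n2 h1 h2 _ _ ih1 ih2 =>
    intro a
    have key := Inj.glue' (w := w) (c' := c) (ih1 a) (ih2 (a + n1)) h1 h2 (by
      apply rows_disj
      rw [disjoint_left]
      intro x hx hx'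
      rw [mem_Ico] at hx hx'
      omega)
    refine key.mono subset_rfl ?_
    rw [← rows_union]
    apply rows_mono
    intro x hx
    rw [mem_union, mem_Ico, mem_Ico] at hx
    rw [mem_Ico]
    omega

/-- translation -/
def tr (u v : ℕ) (D : Finset (ℕ × ℕ)) : Finset (ℕ × ℕ) := D.image (fun d => (d.1 + u, d.2 + v))

lemma mem_tr (u v : ℕ) (D : Finset (ℕ × ℕ)) (d : ℕ × ℕ) :
    d ∈ tr u v D ↔ u ≤ d.1 ∧ v ≤ d.2 ∧ (d.1 - u, d.2 - v) ∈ D := by
  unfold tr
  rw [mem_image]
  constructor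
  · rintro ⟨e, he, rfl⟩
    simp only
    refine ⟨by omega, by omega, ?_⟩
    rw [Nat.add_sub_cancel, Nat.add_sub_cancel]
    exact he
  · rintro ⟨h1, h2, h3⟩
    refine ⟨_, h3, ?_⟩
    simp only
    rw [Nat.sub_add_cancel h1, Nat.sub_add_cancel h2]

theorem Tl.translate {μ : ℕ} {D : Finset (ℕ × ℕ)} {n : ℕ} (h : Tl μ D n) (u v : ℕ) :
    Tl μ (tr u v D) n := by
  induction h with
  | empty => exact Tl.empty.congr (by intro d; simp [tr]) rfl
  | cell sf bf hb =>
    refine (Tl.cell (fun j => sf j + u) (fun j => bf j + v) (by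
      intro i hi j hj h; exact hb i hi j hj (by omega))).congr ?_ rfl
    intro d
    unfold tr
    rw [mem_image, mem_cellD]
    constructor
    · rintro ⟨e, he, rfl⟩
      rw [mem_cellD] at he
      obtain ⟨j, hj, t, ht, rfl⟩ := he
      exact ⟨j, hj, t, ht, by simp only; ext <;> simp only; omega⟩
    · rintro ⟨j, hj, t, ht, rfl⟩
      refine ⟨(sf j + t, bf j), ?_, ?_⟩
      · rw [mem_cellD]; exact ⟨j, hj, t, ht, rfl⟩
      · ext <;> simp only; omega
  | @glue w c D1 D2 n1 n2 h1 h2 _ _ ih1 ih2 =>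
    have hw : ∀ d : ℕ × ℕ, wt w (d.1 + u, d.2 + v) = wt w d + wt w (u, v) := by
      intro d; simp only [wt]; ring
    refine (Tl.glue w (c + wt w (u, v)) ?_ ?_ ih1 ih2).congr ?_ rfl
    · intro d hd
      unfold tr at hd
      obtain ⟨e, he, rfl⟩ := mem_image.1 hd
      rw [hw]
      have := h1 e he
      omega
    · intro d hd
      unfold tr at hd
      obtain ⟨e, he, rfl⟩ := mem_image.1 hd
      rw [hw]
      have := h2 e he
      omega
    · intro d
      unfold tr
      rw [image_union]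

/-- shear -/
def sh (i A : ℕ) (D : Finset (ℕ × ℕ)) : Finset (ℕ × ℕ) :=
  D.image (fun d => (d.1 + i * (A - d.2), d.2))

lemma mem_sh (i A : ℕ) (D : Finset (ℕ × ℕ)) (d : ℕ × ℕ) :
    d ∈ sh i A D ↔ i * (A - d.2) ≤ d.1 ∧ (d.1 - i * (A - d.2), d.2) ∈ D := by
  unfold sh
  rw [mem_image]
  constructor
  · rintro ⟨e, he, rfl⟩
    simp only
    refine ⟨by omega, ?_⟩
    rw [Nat.add_sub_cancel]
    exact he
  · rintro ⟨h1, h3⟩
    refine ⟨_, h3, ?_⟩
    simp only
    rw [Nat.sub_add_cancel h1]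

theorem Tl.shear {μ : ℕ} {D : Finset (ℕ × ℕ)} {n : ℕ} (h : Tl μ D n) (i A : ℕ)
    (hA : ∀ d ∈ D, d.2 ≤ A) : Tl μ (sh i A D) n := by
  induction h with
  | empty => exact Tl.empty.congr (by intro d; simp [sh]) rfl
  | cell sf bf hb =>
    refine (Tl.cell (fun j => sf j + i * (A - bf j)) bf hb).congr ?_ rfl
    intro d
    unfold sh
    rw [mem_image, mem_cellD]
    constructor
    · rintro ⟨e, he, rfl⟩
      rw [mem_cellD] at he
      obtain ⟨j, hj, t, ht, rfl⟩ := he
      refine ⟨j, hj, t, ht, ?_⟩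
      simp only
      ext <;> simp only
      omega
    · rintro ⟨j, hj, t, ht, rfl⟩
      refine ⟨(sf j + t, bf j), ?_, ?_⟩
      · rw [mem_cellD]; exact ⟨j, hj, t, ht, rfl⟩
      · ext <;> simp only; omega
  | @glue w c D1 D2 n1 n2 h1 h2 _ _ ih1 ih2 =>
    have hw : ∀ d : ℕ × ℕ, d.2 ≤ A → wt (w.1, w.2 + i * w.1) (d.1 + i * (A - d.2), d.2) =
        wt w d + i * w.1 * A := by
      intro d hd
      obtain ⟨e, he⟩ := Nat.exists_eq_add_of_le hd
      simp only [wt]
      rw [he, Nat.add_sub_cancel_left]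
      ring
    refine (Tl.glue (w.1, w.2 + i * w.1) (c + i * w.1 * A) ?_ ?_
      (ih1 (fun d hd => hA d (mem_union_left _ hd)))
      (ih2 (fun d hd => hA d (mem_union_right _ hd)))).congr ?_ rfl
    · intro d hd
      unfold sh at hd
      obtain ⟨e, he, rfl⟩ := mem_image.1 hd
      rw [hw e (hA e (mem_union_left _ he))]
      have := h1 e he
      omega
    · intro d hd
      unfold sh at hd
      obtain ⟨e, he, rfl⟩ := mem_image.1 hd
      rw [hw e (hA e (mem_union_right _ he))]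
      have := h2 e he
      omega
    · intro d
      unfold sh
      rw [image_union]

/-- the corner with slope `k` (transposed) -/
def TT (k A : ℕ) : Finset (ℕ × ℕ) :=
  ((range (k * A)) ×ˢ (range A)).filter (fun d => d.1 + k * d.2 < k * A)

lemma mem_TT (k A : ℕ) (d : ℕ × ℕ) : d ∈ TT k A ↔ d.1 + k * d.2 < k * A := by
  unfold TT
  rw [mem_filter, mem_product, mem_range, mem_range]
  constructor
  · rintro ⟨_, h⟩; exact h
  · intro h
    refine ⟨⟨by omega, ?_⟩, h⟩
    by_contra hcon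
    have : k * A ≤ k * d.2 := Nat.mul_le_mul le_rfl (by omega)
    omega

theorem Tl.corner {μ A n : ℕ} (h : Tl μ (TT 1 A) n) : ∀ k, Tl μ (TT k A) (k * n) := by
  intro k
  induction k with
  | zero =>
    refine Tl.empty.congr ?_ (by simp)
    intro d
    rw [mem_TT]
    simp
  | succ k ih =>
    refine (Tl.glue (1, k) (k * A) ?_ ?_ ih (h.shear k A ?_)).congr ?_ (by ring)
    · intro d hd
      rw [mem_TT] at hd
      simp only [wt]
      omega
    · intro d hd
      rw [mem_sh, mem_TT] at hd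
      simp only at hd
      obtain ⟨h1, h2⟩ := hd
      have h3 : d.2 ≤ A := by omega
      obtain ⟨e, he⟩ := Nat.exists_eq_add_of_le h3
      simp only [wt]
      rw [he, Nat.add_sub_cancel_left] at h1
      rw [he]
      nlinarith
    · intro d hd
      rw [mem_TT] at hd
      omega
    · intro d
      rw [mem_union, mem_TT, mem_TT, mem_sh, mem_TT]
      simp only
      rcases le_or_gt A d.2 with h3 | h3
      · have e1 : k * A ≤ k * d.2 := Nat.mul_le_mul le_rfl h3
        have e2 : (k + 1) * A ≤ (k + 1) * d.2 := Nat.mul_le_mul le_rfl h3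
        constructor
        · intro h; omega
        · rintro (h | h)
          · omega
          · omega
      · obtain ⟨e, he⟩ := Nat.exists_eq_add_of_le h3.le
        have e1 : k * A = k * d.2 + k * e := by rw [he]; ring
        have e2 : (k + 1) * A = k * d.2 + d.2 + k * e + e := by rw [he]; ring
        have e3 : (k + 1) * d.2 = k * d.2 + d.2 := by ring
        have e4 : A - d.2 = e := by omega
        rw [e1, e2, e3, e4]
        omega

/-- a block of two cells -/
lemma block {μ : ℕ} : Tl μ ((range (μ + 1)) ×ˢ (range μ)) 2 := by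
  have hA : Tl μ (cellD μ μ (fun _ => 0) (fun j => j)) 1 := Tl.cell _ _ (by intros; omega)
  have hB : Tl μ (cellD μ μ (fun j => j + 1) (fun j => μ - 1 - j)) 1 :=
    Tl.cell _ _ (by intros; omega)
  refine (Tl.glue (1, 1) μ ?_ ?_ hA hB).congr ?_ rfl
  · intro d hd
    rw [mem_cellD] at hd
    obtain ⟨j, hj, t, ht, rfl⟩ := hd
    simp only [wt]; omega
  · intro d hd
    rw [mem_cellD] at hd
    obtain ⟨j, hj, t, ht, rfl⟩ := hd
    simp only [wt]; omega
  · intro d
    rw [mem_union, mem_product, mem_range, mem_range, mem_cellD, mem_cellD]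
    constructor
    · rintro ⟨h1, h2⟩
      by_cases hc : d.1 + d.2 < μ
      · left
        refine ⟨d.2, by omega, d.1, by omega, ?_⟩
        ext <;> simp only; omega
      · right
        refine ⟨μ - 1 - d.2, by omega, d.1 - (μ - 1 - d.2 + 1), by omega, ?_⟩
        ext <;> simp only <;> omega
    · rintro (⟨j, hj, t, ht, rfl⟩ | ⟨j, hj, t, ht, rfl⟩)
      · simp only; omega
      · simp only; omega

/-- the first triangle is a cell -/
lemma cellTri {μ : ℕ} : Tl μ (TT 1 μ) 1 := by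
  refine (Tl.cell (fun _ => 0) (fun j => j) (by intros; omega)).congr ?_ rfl
  intro d
  rw [mem_TT, mem_cellD]
  constructor
  · intro h
    refine ⟨d.2, by omega, d.1, by omega, ?_⟩
    ext <;> simp only; omega
  · rintro ⟨j, hj, t, ht, rfl⟩
    simp only; omega

/-- columns of width `μ + 1` -/
def CC (μ N : ℕ) : Finset (ℕ × ℕ) :=
  ((range (μ + 1)) ×ˢ (range (μ * N))).filter (fun d => d.1 + d.2 < μ * N)

lemma mem_CC (μ N : ℕ) (d : ℕ × ℕ) : d ∈ CC μ N ↔ d.1 ≤ μ ∧ d.1 + d.2 < μ * N := by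
  unfold CC
  rw [mem_filter, mem_product, mem_range, mem_range]
  omega

lemma colT {μ : ℕ} (N : ℕ) : Tl μ (CC μ (N + 1)) (2 * N + 1) := by
  induction N with
  | zero =>
    refine cellTri.congr ?_ rfl
    intro d
    rw [mem_CC, mem_TT]
    omega
  | succ N ih =>
    refine (Tl.glue (0, 1) μ ?_ ?_ (block (μ := μ)) (ih.translate 0 μ)).congr ?_ (by ring)
    · intro d hd
      rw [mem_product, mem_range, mem_range] at hd
      simp only [wt]; omega
    · intro d hd
      rw [mem_tr] at hd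
      simp only [wt]; omega
    · intro d
      rw [mem_union, mem_tr, mem_CC, mem_CC, mem_product, mem_range, mem_range]
      simp only
      have e1 : μ * (N + 1 + 1) = μ * N + μ + μ := by ring
      have e2 : μ * (N + 1) = μ * N + μ := by ring
      rw [e1, e2]
      set z := μ * N
      omega

/-- the part of the column triangle above the fan, first `p` strips -/
def SS (μ t p : ℕ) : Finset (ℕ × ℕ) :=
  ((range (p * (μ + 1))) ×ˢ (range (t * (μ * (μ + 1))))).filter
    (fun d => μ * (μ + 1) ≤ d.1 + (μ + 1) * d.2 ∧ d.1 + d.2 < t * (μ * (μ + 1)))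

lemma mem_SS (μ t p : ℕ) (d : ℕ × ℕ) : d ∈ SS μ t p ↔ d.1 < p * (μ + 1) ∧
    μ * (μ + 1) ≤ d.1 + (μ + 1) * d.2 ∧ d.1 + d.2 < t * (μ * (μ + 1)) := by
  unfold SS
  rw [mem_filter, mem_product, mem_range, mem_range]
  omega

lemma stripsT {μ : ℕ} (t : ℕ) (p : ℕ) (hp : p ≤ μ) :
    Tl μ (SS μ (t + 1) p) (∑ s ∈ range p, (2 * (t * (μ + 1) + (μ - s) - 1) + 1)) := by
  induction p with
  | zero =>
    refine Tl.empty.congr ?_ (by simp)
    intro d
    rw [mem_SS]
    simp
  | succ p ih =>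
    rw [sum_range_succ]
    refine (Tl.glue (1, 0) (p * (μ + 1)) ?_ ?_ (ih (by omega))
      ((colT (μ := μ) (t * (μ + 1) + (μ - p) - 1)).translate (p * (μ + 1)) (μ - p))).congr ?_ rfl
    · intro d hd
      rw [mem_SS] at hd
      simp only [wt]; omega
    · intro d hd
      rw [mem_tr] at hd
      simp only [wt]; omega
    · intro d
      rw [mem_union, mem_tr, mem_CC, mem_SS, mem_SS]
      simp only
      obtain ⟨q, hq⟩ := Nat.exists_eq_add_of_le hp
      have e0 : μ - p = q + 1 := by omega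
      rw [e0]
      have e1 : t * (μ + 1) + (q + 1) - 1 + 1 = t * (μ + 1) + q + 1 := by omega
      rw [e1]
      have e2 : (p + 1) * (μ + 1) = p * (μ + 1) + (μ + 1) := by ring
      rw [e2]
      have e3 : μ * (t * (μ + 1) + q + 1) = t * (μ * (μ + 1)) + μ * (q + 1) := by ring
      rw [e3]
      have e4 : (t + 1) * (μ * (μ + 1)) = t * (μ * (μ + 1)) + μ * (μ + 1) := by ring
      rw [e4]
      have e5 : μ * (μ + 1) = p * (μ + 1) + (q + 1) * (μ + 1) := by
        nth_rewrite 1 [hq]; ring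
      have e6 : μ * (q + 1) + (q + 1) = (q + 1) * (μ + 1) := by ring
      set z := t * (μ * (μ + 1))
      set a := p * (μ + 1)
      set b := (q + 1) * (μ + 1) with hb
      rw [e5]
      constructor
      · rintro ⟨h1, h2, h3⟩
        by_cases h4 : d.1 < a
        · left; exact ⟨h4, h2, h3⟩
        · right
          have h5 : q + 1 ≤ d.2 := by
            by_contra hcon
            have : (μ + 1) * (d.2 + 1) ≤ (μ + 1) * (q + 1) := Nat.mul_le_mul le_rfl (by omega)
            have e7 : (μ + 1) * (q + 1) = b := by rw [hb]; ring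
            have e8 : (μ + 1) * (d.2 + 1) = (μ + 1) * d.2 + (μ + 1) := by ring
            omega
          exact ⟨by omega, h5, by omega, by omega⟩
      · rintro (⟨h1, h2, h3⟩ | ⟨h1, h2, h3, h4⟩)
        · exact ⟨by omega, h2, h3⟩
        · refine ⟨by omega, ?_, by omega⟩
          have : (μ + 1) * (q + 1) ≤ (μ + 1) * d.2 := Nat.mul_le_mul le_rfl h2
          have e7 : (μ + 1) * (q + 1) = b := by rw [hb]; ring
          omega

/-- a column of width `L = μ * (μ + 1)` of the triangle -/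
def BB (L t : ℕ) : Finset (ℕ × ℕ) :=
  ((range L) ×ˢ (range (t * L))).filter (fun d => d.1 + d.2 < t * L)

lemma mem_BB (L t : ℕ) (d : ℕ × ℕ) : d ∈ BB L t ↔ d.1 < L ∧ d.1 + d.2 < t * L := by
  unfold BB
  rw [mem_filter, mem_product, mem_range, mem_range]
  omega

lemma sum_strips (μ t : ℕ) : ∀ p ≤ μ, (∑ s ∈ range p, (2 * (t * (μ + 1) + (μ - s) - 1) + 1)) +
    p * p = 2 * p * (t * (μ + 1) + μ) := by
  intro p
  induction p with
  | zero => simp
  | succ p ih =>
    intro hp
    have := ih (by omega)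
    rw [sum_range_succ]
    have e1 : 2 * (t * (μ + 1) + (μ - p) - 1) + 1 + (2 * p + 1) = 2 * (t * (μ + 1) + μ) := by
      omega
    have e2 : (p + 1) * (p + 1) = p * p + (2 * p + 1) := by ring
    have e3 : 2 * (p + 1) * (t * (μ + 1) + μ) = 2 * p * (t * (μ + 1) + μ) +
      2 * (t * (μ + 1) + μ) := by ring
    rw [e2, e3, ← this, ← e1]
    ring

lemma blockT {μ : ℕ} (t : ℕ) :
    Tl μ (BB (μ * (μ + 1)) (t + 1)) ((2 * t + 1) * (μ * (μ + 1)) + 1) := by
  refine (Tl.glue (1, μ + 1) (μ * (μ + 1)) ?_ ?_ ((cellTri (μ := μ)).corner (μ + 1))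
    (stripsT (μ := μ) t μ le_rfl)).congr ?_ ?_
  · intro d hd
    rw [mem_TT] at hd
    simp only [wt]
    have : (μ + 1) * μ = μ * (μ + 1) := by ring
    omega
  · intro d hd
    rw [mem_SS] at hd
    simp only [wt]; omega
  · intro d
    rw [mem_union, mem_BB, mem_TT, mem_SS]
    have e1 : (μ + 1) * μ = μ * (μ + 1) := by ring
    have e4 : (t + 1) * (μ * (μ + 1)) = t * (μ * (μ + 1)) + μ * (μ + 1) := by ring
    have e5 : (μ + 1) * d.2 = μ * d.2 + d.2 := by ring
    rw [e1, e4, e5]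
    set L := μ * (μ + 1)
    set z := t * L
    set y := μ * d.2
    omega
  · have h := sum_strips μ t μ le_rfl
    have e1 : (2 * t + 1) * (μ * (μ + 1)) + 1 + μ * μ = (μ + 1) * 1 + 2 * μ * (t * (μ + 1) + μ) := by
      ring
    rw [← h] at e1
    omega

theorem triT {μ : ℕ} (K : ℕ) : Tl μ (TT 1 (K * (μ * (μ + 1)))) (K * (K * (μ * (μ + 1)) + 1)) := by
  induction K with
  | zero =>
    refine Tl.empty.congr ?_ (by simp)
    intro d
    rw [mem_TT]
    simp
  | succ K ih =>
    refine (Tl.glue (1, 0) (μ * (μ + 1)) ?_ ?_ (blockT (μ := μ) K)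
      (ih.translate (μ * (μ + 1)) 0)).congr ?_ (by ring)
    · intro d hd
      rw [mem_BB] at hd
      simp only [wt]; omega
    · intro d hd
      rw [mem_tr] at hd
      simp only [wt]; omega
    · intro d
      rw [mem_union, mem_BB, mem_tr, mem_TT, mem_TT]
      simp only
      have e4 : (K + 1) * (μ * (μ + 1)) = K * (μ * (μ + 1)) + μ * (μ + 1) := by ring
      rw [e4]
      set L := μ * (μ + 1)
      set z := K * L
      omega

/-- exchange of the coordinates -/
theorem inj_swap {m : ℕ → ℕ} {s : Finset ℕ} {D : Finset (ℕ × ℕ)} (h : Inj D (rows m s)) :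
    Inj (D.image Prod.swap) (rows m s) := by
  obtain ⟨P, hP⟩ := h
  refine ⟨fun k => (P k).swap, ?_⟩
  intro c hc d hd
  obtain ⟨e, he, rfl⟩ := mem_image.1 hd
  refine hP (fun d => c d.swap) ?_ e he
  intro r hr
  rw [mem_rows] at hr
  have h1 := hc (r.1, r.2.swap) (by
    rw [mem_rows]
    refine ⟨hr.1, ?_⟩
    simp only [Prod.fst_swap, Prod.snd_swap]
    omega)
  rw [sum_image (by intro a _ b _ hab; exact Prod.swap_injective hab)] at h1
  refine Eq.trans ?_ h1
  apply sum_congr rfl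
  intro d _
  unfold E
  simp only [Prod.fst_swap, Prod.snd_swap]
  ring

/-- the corner of slope `k` -/
def cornD (k A y0 : ℕ) : Finset (ℕ × ℕ) :=
  ((range A) ×ˢ (Ico y0 (y0 + k * A))).filter (fun d => k * d.1 + (d.2 - y0) < k * A)

theorem corn_inj (μ k K y0 a : ℕ) (_hμ : 1 ≤ μ) (_hk : 1 ≤ k) :
    Inj (cornD k (K * (μ * (μ + 1))) y0)
      (rows (fun _ => μ) (Ico a (a + k * (K * (K * (μ * (μ + 1)) + 1))))) := by
  have h := inj_swap ((((triT (μ := μ) K).corner k).translate y0 0).inj a)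
  refine h.mono ?_ subset_rfl
  intro d hd
  unfold cornD at hd
  rw [mem_filter, mem_product, mem_range, mem_Ico] at hd
  rw [mem_image]
  refine ⟨d.swap, ?_, Prod.swap_swap d⟩
  rw [mem_tr, mem_TT]
  simp only [Prod.fst_swap, Prod.snd_swap]
  refine ⟨hd.1.2.1, Nat.zero_le _, ?_⟩
  rw [Nat.sub_zero]
  omega

end Pool.Agent.Helper39.Ah
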