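import Mathlib
import Pool.Agent.Helper43.Ah.Good
import Pool.Agent.Helper39.Ah.Corner

/-!
The arithmetic of the three shapes: wall, corner, plane.
-/

set_option autoImplicit false
set_option linter.unusedSectionVars false

namespace Pool.Agent.Helper39.Ah

open Finset Pool.Agent.Lead.Sh Pool.Agent.Helper43.Ah

lemma choose_two_mul (n : ℕ) : 2 * (n + 1).choose 2 = n * (n + 1) := by
  rw [Nat.choose_two_right, Nat.add_sub_cancel]
  have h : 2 ∣ (n + 1) * n := by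
    rw [mul_comm]
    exact (Nat.even_mul_succ_self n).two_dvd
  rw [Nat.mul_div_cancel' h, mul_comm]

lemma sum_sub_range (n : ℕ) : ∑ j ∈ range n, (n - j) = (n + 1).choose 2 := by
  induction n with
  | zero => simp
  | succ n ih =>
    rw [sum_range_succ']
    have e : ∑ j ∈ range n, (n + 1 - (j + 1)) = ∑ j ∈ range n, (n - j) :=
      sum_congr rfl (fun j _ => by omega)
    have e2 : (n + 1 + 1).choose 2 = (n + 1) + (n + 1).choose 2 := by
      have := Nat.choose_succ_succ' (n + 1) 1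
      rw [Nat.choose_one_right] at this
      exact this
    rw [e, ih, e2]
    omega

theorem Tl.card {μ : ℕ} {D : Finset (ℕ × ℕ)} {n : ℕ} (h : Tl μ D n) :
    D.card = n * (μ + 1).choose 2 := by
  induction h with
  | empty => simp
  | cell sf bf hb =>
    rw [card_cellD μ μ sf bf hb, sum_sub_range, one_mul]
  | @glue w c D1 D2 n1 n2 h1 h2 _ _ ih1 ih2 =>
    rw [card_union_of_disjoint, ih1, ih2, add_mul]
    rw [disjoint_left]
    intro d hd hd'
    exact absurd (h1 d hd) (not_lt.2 (h2 d hd'))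

lemma mem_cornD {k A y0 : ℕ} {d : ℕ × ℕ} :
    d ∈ cornD k A y0 ↔ y0 ≤ d.2 ∧ k * d.1 + (d.2 - y0) < k * A := by
  unfold cornD
  rw [mem_filter, mem_product, mem_range, mem_Ico]
  constructor
  · rintro ⟨⟨_, h1, _⟩, h2⟩; exact ⟨h1, h2⟩
  · rintro ⟨h1, h2⟩
    refine ⟨⟨?_, h1, by omega⟩, h2⟩
    by_contra hcon
    have : k * A ≤ k * d.1 := Nat.mul_le_mul le_rfl (by omega)
    omega

lemma cornD_eq (k A y0 : ℕ) : cornD k A y0 = (tr y0 0 (TT k A)).image Prod.swap := by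
  ext d
  rw [mem_cornD, mem_image]
  constructor
  · rintro ⟨h1, h2⟩
    refine ⟨d.swap, ?_, Prod.swap_swap d⟩
    rw [mem_tr, mem_TT]
    simp only [Prod.fst_swap, Prod.snd_swap]
    refine ⟨h1, Nat.zero_le _, ?_⟩
    rw [Nat.sub_zero]
    omega
  · rintro ⟨e, he, rfl⟩
    rw [mem_tr, mem_TT, Nat.sub_zero] at he
    simp only [Prod.fst_swap, Prod.snd_swap] at he ⊢
    omega

lemma card_corn (μ k K y0 : ℕ) : (cornD k (K * (μ * (μ + 1))) y0).card =
    (k * (K * (K * (μ * (μ + 1)) + 1))) * (μ + 1).choose 2 := by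
  rw [cornD_eq, card_image_of_injective _ Prod.swap_injective]
  exact (((triT (μ := μ) K).corner k).translate y0 0).card

lemma card_corn_le (μ k K y0 m : ℕ) (hA : K * (μ * (μ + 1)) + 1 ≤ 4 * m ^ 2) :
    2 * (cornD k (K * (μ * (μ + 1))) y0).card ≤ k * (16 * m ^ 4) := by
  rw [card_corn]
  have e := choose_two_mul μ
  have e1 : 2 * (k * (K * (K * (μ * (μ + 1)) + 1)) * (μ + 1).choose 2) =
      k * ((K * (μ * (μ + 1))) * (K * (μ * (μ + 1)) + 1)) := by
    calc 2 * (k * (K * (K * (μ * (μ + 1)) + 1)) * (μ + 1).choose 2)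
        = k * (K * (K * (μ * (μ + 1)) + 1)) * (2 * (μ + 1).choose 2) := by ring
      _ = _ := by rw [e]; ring
  rw [e1]
  apply Nat.mul_le_mul le_rfl
  have e2 : 16 * m ^ 4 = (4 * m ^ 2) * (4 * m ^ 2) := by ring
  rw [e2]
  exact Nat.mul_le_mul (by omega) hA

/-- existence of the size of the corner -/
lemma exists_K (m μ : ℕ) (hμ : 1 ≤ μ) (hm : μ ≤ m) :
    ∃ K, 2 * m ^ 2 ≤ K * (μ * (μ + 1)) ∧ K * (μ * (μ + 1)) + 1 ≤ 4 * m ^ 2 := by
  have hL : 1 ≤ μ * (μ + 1) := Nat.mul_pos hμ (by omega)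
  have hL2 : μ * (μ + 1) ≤ 2 * m ^ 2 := by nlinarith
  refine ⟨(2 * m ^ 2 - 1) / (μ * (μ + 1)) + 1, ?_, ?_⟩
  · have h1 := Nat.lt_div_mul_add (a := 2 * m ^ 2 - 1) hL
    have h2 : 2 * m ^ 2 - 1 < 2 * m ^ 2 := by
      have : 1 ≤ m ^ 2 := Nat.one_le_pow _ _ (by omega)
      omega
    rw [add_mul, one_mul]
    omega
  · have h1 := Nat.div_mul_le_self (2 * m ^ 2 - 1) (μ * (μ + 1))
    have h2 : 1 ≤ m ^ 2 := Nat.one_le_pow _ _ (by omega)
    rw [add_mul, one_mul]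
    have h3 : μ * (μ + 1) ≤ 2 * m ^ 2 := hL2
    omega

section Sums

variable {W : ℕ} {H : ℕ → ℕ}

lemma H_low (hdrop : ∀ y, y + 1 < W → H y ≤ H (y + 1) + 2) : ∀ y < W, H 0 ≤ H y + 2 * y := by
  intro y
  induction y with
  | zero => intro _; omega
  | succ y ih =>
    intro hy
    have h1 := ih (by omega)
    have h2 := hdrop y hy
    omega

lemma H_anti (hanti : ∀ y, y + 1 < W → H (y + 1) ≤ H y) :
    ∀ a b, a ≤ b → b < W → H b ≤ H a := by
  intro a b hab
  induction b, hab using Nat.le_induction with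
  | base => intro _; exact le_rfl
  | succ b hb ih =>
    intro h
    exact le_trans (hanti b h) (ih (by omega))

lemma sum_ge (hdrop : ∀ y, y + 1 < W → H y ≤ H (y + 1) + 2) (Y : ℕ) (hY : Y ≤ W) :
    Y * H 0 ≤ ∑ y ∈ range Y, H y + 2 * Y * Y := by
  have : ∀ Y ≤ W, Y * H 0 ≤ ∑ y ∈ range Y, H y + Y * Y := by
    intro Y
    induction Y with
    | zero => intro _; simp
    | succ Y ih =>
      intro h
      have h1 := ih (by omega)
      have h2 := H_low hdrop Y (by omega)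
      rw [sum_range_succ]
      nlinarith
  have h := this Y hY
  nlinarith

lemma sum_le_top (hanti : ∀ y, y + 1 < W → H (y + 1) ≤ H y) (Y : ℕ) (hY : Y ≤ W) :
    ∑ y ∈ range Y, (H y + 1) ≤ Y * (H 0 + 1) := by
  calc ∑ y ∈ range Y, (H y + 1) ≤ ∑ y ∈ range Y, (H 0 + 1) := by
        apply sum_le_sum
        intro y hy
        rw [mem_range] at hy
        have := H_anti hanti 0 y (Nat.zero_le _) (by omega)
        omega
    _ = Y * (H 0 + 1) := by rw [sum_const, card_range, smul_eq_mul]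

end Sums

/-- the hypothesis of the profile theorem -/
def Hyp (m : ℕ) (D : Finset (ℕ × ℕ)) (H : ℕ → ℕ) : Prop :=
  ∀ μ, 1 ≤ μ → μ ≤ m → ∃ (R n : ℕ) (E : Finset (ℕ × ℕ)), D = rowsD R H ∪ E ∧
    (∀ d ∈ E, R ≤ d.2) ∧ E.card = n * (μ + 1).choose 2 ∧
    Inj E (rows (fun _ => μ) (range n)) ∧ 2 * m < R ∧ (m + 1).choose 2 ≤ R ∧
    (∀ y < R, 2 * m * m + 1 ≤ H y) ∧ (∀ y, y + 1 < R → H (y + 1) ≤ H y) ∧
    (∀ y, y + 1 < R → H y ≤ H (y + 1) + 2) ∧ (∀ y < 2 * m, 9 * m ^ 3 + 1 ≤ H y) ∧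
    m * (E.card + ∑ y ∈ range (2 * m), (H y + 1)) + (m + 1).choose 2 ≤ D.card

theorem hyp_wall (m W : ℕ) (H : ℕ → ℕ) (hm : 1 ≤ m)
    (hanti : ∀ y, y + 1 < W → H (y + 1) ≤ H y)
    (hdrop : ∀ y, y + 1 < W → H y ≤ H (y + 1) + 2) (hW : 3 * m ^ 2 ≤ W)
    (hmin : 3 * m ^ 2 ≤ H (W - 1)) (h0 : 50 * m ^ 3 ≤ H 0) : Hyp m (rowsD W H) H := by
  intro μ hμ hμm
  have c1 := choose_two_mul m
  have p1 : m ≤ m ^ 2 := by nlinarith
  have p2 : m ^ 2 ≤ m ^ 3 := Nat.pow_le_pow_right hm (by norm_num)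
  refine ⟨W, 0, ∅, by simp, by simp, by simp, inj_empty _, by omega, by nlinarith, ?_, hanti,
    hdrop, ?_, ?_⟩
  · intro y hy
    have := H_anti hanti y (W - 1) (by omega) (by omega)
    nlinarith
  · intro y hy
    have := H_low hdrop y (by omega)
    omega
  · rw [card_empty, zero_add, card_rowsD]
    have h1 := sum_le_top hanti (2 * m) (by omega)
    have h2 := sum_ge hdrop (3 * m ^ 2) hW
    have h3 : ∑ y ∈ range (3 * m ^ 2), H y ≤ ∑ y ∈ range W, H y :=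
      sum_le_sum_of_subset (range_subset_range.2 hW)
    have h4 : m * ∑ y ∈ range (2 * m), (H y + 1) ≤ m * (2 * m * (H 0 + 1)) :=
      Nat.mul_le_mul le_rfl h1
    have h5 : (m + 1).choose 2 ≤ m ^ 2 := by nlinarith
    have h6 : m ^ 2 * (50 * m ^ 3) ≤ m ^ 2 * H 0 := Nat.mul_le_mul le_rfl h0
    have h7 : m ^ 2 ≤ m ^ 5 := Nat.pow_le_pow_right hm (by norm_num)
    have h8 : m ^ 4 ≤ m ^ 5 := Nat.pow_le_pow_right hm (by norm_num)
    have e1 : m * (2 * m * (H 0 + 1)) = 2 * (m ^ 2 * H 0) + 2 * m ^ 2 := by ring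
    have e2 : 3 * m ^ 2 * H 0 = 3 * (m ^ 2 * H 0) := by ring
    have e3 : 2 * (3 * m ^ 2) * (3 * m ^ 2) = 18 * m ^ 4 := by ring
    have e4 : m ^ 2 * (50 * m ^ 3) = 50 * m ^ 5 := by ring
    rw [e2, e3] at h2
    rw [e4] at h6
    rw [e1] at h4
    omega

theorem hyp_corner (m W k : ℕ) (H : ℕ → ℕ) (hm : 1 ≤ m) (hk : 1 ≤ k) (hk9 : k ≤ 9)
    (hanti : ∀ y, y + 1 < W → H (y + 1) ≤ H y)
    (hdrop : ∀ y, y + 1 < W → H y ≤ H (y + 1) + 2) (hWk : k * (4 * m ^ 2) ≤ W)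
    (hc : ∀ y < W, W ≤ y + k * (4 * m ^ 2) → H y = (W - y + k - 1) / k)
    (h0 : 50 * m ^ 3 ≤ H 0) : Hyp m (rowsD W H) H := by
  intro μ hμ hμm
  have c1 := choose_two_mul m
  have p1 : m ≤ m ^ 2 := by nlinarith
  have p2 : m ^ 2 ≤ m ^ 3 := Nat.pow_le_pow_right hm (by norm_num)
  have h5 : (m + 1).choose 2 ≤ m ^ 2 := by nlinarith
  obtain ⟨K, hK1, hK2⟩ := exists_K m μ hμ hμm
  have hcl := fun y0 => card_corn_le μ k K y0 m hK2
  have hcc := fun y0 => card_corn μ k K y0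
  have hci := fun y0 => corn_inj μ k K y0 0 hμ hk
  set A := K * (μ * (μ + 1)) with hA
  have hm2 : 1 ≤ m ^ 2 := Nat.one_le_pow _ _ hm
  have hkA : k * A + k ≤ k * (4 * m ^ 2) := by
    calc k * A + k = k * (A + 1) := by ring
      _ ≤ _ := Nat.mul_le_mul le_rfl hK2
  have hkA1 : 1 ≤ k * A := Nat.mul_pos hk (by omega)
  obtain ⟨R, hR⟩ : ∃ R, W = R + k * A := ⟨W - k * A, by omega⟩
  have hHR : H R = A := by
    rw [hc R (by omega) (by omega), hR]
    rw [show R + k * A - R + k - 1 = (k - 1) + k * A by omega, Nat.add_mul_div_left _ _ hk,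
      Nat.div_eq_of_lt (by omega), zero_add]
  have hR0 := H_low hdrop R (by omega)
  have hRbig : 23 * m ^ 3 ≤ R := by omega
  have hHR1 : H (R - 1) = A + 1 := by
    rw [hc (R - 1) (by omega) (by omega), hR]
    rw [show R + k * A - (R - 1) + k - 1 = k * (A + 1) by
      rw [Nat.mul_add, mul_one]; omega, Nat.mul_div_cancel_left _ hk]
  refine ⟨R, k * (K * (A + 1)), cornD k A R, ?_, ?_, hcc R, ?_, by omega, by omega, ?_,
    fun y hy => hanti y (by omega), fun y hy => hdrop y (by omega), ?_, ?_⟩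
  · ext d
    rw [mem_union, mem_rowsD, mem_rowsD, mem_cornD]
    constructor
    · rintro ⟨h1, h2⟩
      by_cases h3 : d.2 < R
      · left; exact ⟨h3, h2⟩
      · right
        rw [hc d.2 h1 (by omega)] at h2
        refine ⟨by omega, ?_⟩
        have h4 : k * (d.1 + 1) ≤ W - d.2 + k - 1 := by
          calc k * (d.1 + 1) ≤ k * ((W - d.2 + k - 1) / k) := Nat.mul_le_mul le_rfl h2
            _ ≤ _ := Nat.mul_div_le _ _
        rw [Nat.mul_add, mul_one] at h4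
        omega
    · rintro (⟨h1, h2⟩ | ⟨h1, h2⟩)
      · exact ⟨by omega, h2⟩
      · have h3 : d.2 < W := by omega
        refine ⟨h3, ?_⟩
        rw [hc d.2 h3 (by omega)]
        rw [Nat.lt_iff_add_one_le, Nat.le_div_iff_mul_le hk]
        rw [add_mul, one_mul, mul_comm d.1 k]
        omega
  · intro d hd
    rw [mem_cornD] at hd
    exact hd.1
  · have := hci R
    rw [zero_add, ← range_eq_Ico] at this
    exact this
  · intro y hy
    have := H_anti hanti y (R - 1) (by omega) (by omega)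
    have e : 2 * m * m = 2 * m ^ 2 := by ring
    omega
  · intro y hy
    have := H_low hdrop y (by omega)
    omega
  · have hdis : Disjoint (rowsD R H) (cornD k A R) := by
      rw [disjoint_left]
      intro d hd hd'
      rw [mem_rowsD] at hd
      rw [mem_cornD] at hd'
      omega
    have hunion : rowsD W H = rowsD R H ∪ cornD k A R := by
      ext d
      rw [mem_union, mem_rowsD, mem_rowsD, mem_cornD]
      constructor
      · rintro ⟨h1, h2⟩
        by_cases h3 : d.2 < R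
        · left; exact ⟨h3, h2⟩
        · right
          rw [hc d.2 h1 (by omega)] at h2
          refine ⟨by omega, ?_⟩
          have h4 : k * (d.1 + 1) ≤ W - d.2 + k - 1 := by
            calc k * (d.1 + 1) ≤ k * ((W - d.2 + k - 1) / k) := Nat.mul_le_mul le_rfl h2
              _ ≤ _ := Nat.mul_div_le _ _
          rw [Nat.mul_add, mul_one] at h4
          omega
      · rintro (⟨h1, h2⟩ | ⟨h1, h2⟩)
        · exact ⟨by omega, h2⟩
        · have h3 : d.2 < W := by omega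
          refine ⟨h3, ?_⟩
          rw [hc d.2 h3 (by omega)]
          rw [Nat.lt_iff_add_one_le, Nat.le_div_iff_mul_le hk]
          rw [add_mul, one_mul, mul_comm d.1 k]
          omega
    rw [hunion, card_union_of_disjoint hdis, card_rowsD]
    have h1 := sum_le_top hanti (2 * m) (by omega)
    have h2 := sum_ge hdrop (5 * m ^ 3) (by omega)
    have h3 : ∑ y ∈ range (5 * m ^ 3), H y ≤ ∑ y ∈ range R, H y :=
      sum_le_sum_of_subset (range_subset_range.2 (by omega))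
    have h4 : m * ∑ y ∈ range (2 * m), (H y + 1) ≤ m * (2 * m * (H 0 + 1)) :=
      Nat.mul_le_mul le_rfl h1
    have h5 : (m + 1).choose 2 ≤ m ^ 2 := by nlinarith
    have h9 := hcl R
    have h10 : k * (16 * m ^ 4) ≤ 9 * (16 * m ^ 4) := Nat.mul_le_mul hk9 le_rfl
    have h11 : m * (cornD k A R).card ≤ m * (72 * m ^ 4) := Nat.mul_le_mul le_rfl (by omega)
    have h6 : m ^ 3 * (50 * m ^ 3) ≤ m ^ 3 * H 0 := Nat.mul_le_mul le_rfl h0
    have h7 : m ^ 2 ≤ m ^ 6 := Nat.pow_le_pow_right hm (by norm_num)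
    have h8 : m ^ 5 ≤ m ^ 6 := Nat.pow_le_pow_right hm (by norm_num)
    have h12 : m ^ 2 * H 0 ≤ m ^ 3 * H 0 := Nat.mul_le_mul p2 le_rfl
    have e1 : m * (2 * m * (H 0 + 1)) = 2 * (m ^ 2 * H 0) + 2 * m ^ 2 := by ring
    have e2 : 5 * m ^ 3 * H 0 = 5 * (m ^ 3 * H 0) := by ring
    have e3 : 2 * (5 * m ^ 3) * (5 * m ^ 3) = 50 * m ^ 6 := by ring
    have e4 : m ^ 3 * (50 * m ^ 3) = 50 * m ^ 6 := by ring
    have e5 : m * (72 * m ^ 4) = 72 * m ^ 5 := by ring
    rw [e2, e3] at h2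
    rw [e4] at h6
    rw [e1] at h4
    rw [e5] at h11
    rw [mul_add]
    omega

lemma triD_eq (d : ℕ) : triD 0 d = rowsD (d + 1) (fun y => d + 1 - y) := by
  ext p
  rw [mem_triD, mem_rowsD]
  omega

theorem hyp_P2 (m d : ℕ) (hm : 1 ≤ m) (hd : 10 * m ^ 3 ≤ d) :
    Hyp m (triD 0 d) (fun y => d + 1 - y) := by
  intro μ hμ hμm
  have c1 := choose_two_mul m
  have p1 : m ≤ m ^ 2 := by nlinarith
  have p2 : m ^ 2 ≤ m ^ 3 := Nat.pow_le_pow_right hm (by norm_num)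
  have hm2 : 1 ≤ m ^ 2 := Nat.one_le_pow _ _ hm
  have h5 : (m + 1).choose 2 ≤ m ^ 2 := by nlinarith
  obtain ⟨K, hK1, hK2⟩ := exists_K m μ hμ hμm
  have hcc := fun y0 => card_corn μ 1 K y0
  have hci := fun y0 => corn_inj μ 1 K y0 0 hμ le_rfl
  have hcl := fun y0 => card_corn_le μ 1 K y0 m hK2
  set A := K * (μ * (μ + 1)) with hA
  obtain ⟨R, hR⟩ : ∃ R, d + 1 = R + A := ⟨d + 1 - A, by omega⟩
  have hdis : Disjoint (rowsD R (fun y => d + 1 - y)) (cornD 1 A R) := by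
    rw [disjoint_left]
    intro d hd hd'
    rw [mem_rowsD] at hd
    rw [mem_cornD] at hd'
    omega
  have hunion : triD 0 d = rowsD R (fun y => d + 1 - y) ∪ cornD 1 A R := by
    ext p
    rw [mem_union, mem_triD, mem_rowsD, mem_cornD]
    omega
  refine ⟨R, 1 * (K * (A + 1)), cornD 1 A R, hunion, ?_, hcc R, ?_, by omega, by omega, ?_,
    ?_, ?_, ?_, ?_⟩
  · intro d hd
    rw [mem_cornD] at hd
    exact hd.1
  · have := hci R
    rw [zero_add, ← range_eq_Ico] at this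
    exact this
  · intro y hy
    have e : 2 * m * m = 2 * m ^ 2 := by ring
    simp only
    omega
  · intro y hy; simp only; omega
  · intro y hy; simp only; omega
  · intro y hy
    simp only
    have : 2 * m ≤ m ^ 3 + 1 := by
      rcases Nat.lt_or_ge m 2 with h | h
      · have : m = 1 := by omega
        subst this; norm_num
      · have h1 : 2 * m ≤ m * m := Nat.mul_le_mul h le_rfl
        nlinarith
    omega
  · have hcard : 2 * (triD 0 d).card = (d + 1) * (d + 2) := by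
      rw [triD_eq, card_rowsD, sum_sub_range, choose_two_mul]
    have h1 : ∑ y ∈ range (2 * m), (d + 1 - y + 1) ≤ 2 * m * (d + 2) := by
      calc ∑ y ∈ range (2 * m), (d + 1 - y + 1) ≤ ∑ y ∈ range (2 * m), (d + 2) := by
            apply sum_le_sum
            intro y _
            omega
        _ = 2 * m * (d + 2) := by rw [sum_const, card_range, smul_eq_mul]
    have h4 : m * ∑ y ∈ range (2 * m), (d + 1 - y + 1) ≤ m * (2 * m * (d + 2)) :=
      Nat.mul_le_mul le_rfl h1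
    have h5 : (m + 1).choose 2 ≤ m ^ 2 := by nlinarith
    have h9 := hcl R
    have h11 : m * (2 * (cornD 1 A R).card) ≤ m * (16 * m ^ 4) :=
      Nat.mul_le_mul le_rfl (by omega)
    have e1 : m * (2 * m * (d + 2)) = 2 * (m ^ 2 * d) + 4 * m ^ 2 := by ring
    have e2 : m * (2 * (cornD 1 A R).card) = 2 * (m * (cornD 1 A R).card) := by ring
    have e5 : m * (16 * m ^ 4) = 16 * m ^ 5 := by ring
    have e6 : (d + 1) * (d + 2) = d * d + 3 * d + 2 := by ring
    have h6 : (10 * m ^ 3) * d ≤ d * d := Nat.mul_le_mul hd le_rfl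
    have e7 : (10 * m ^ 3) * d = 10 * (m ^ 3 * d) := by ring
    have h7 : m ^ 2 * d ≤ m ^ 3 * d := Nat.mul_le_mul p2 le_rfl
    have h8 : m ^ 3 * (10 * m ^ 3) ≤ m ^ 3 * d := Nat.mul_le_mul le_rfl hd
    have e8 : m ^ 3 * (10 * m ^ 3) = 10 * m ^ 6 := by ring
    have h10 : m ^ 5 ≤ m ^ 6 := Nat.pow_le_pow_right hm (by norm_num)
    have h12 : m ^ 2 ≤ m ^ 6 := Nat.pow_le_pow_right hm (by norm_num)
    rw [e6] at hcard
    rw [e7] at h6
    rw [e8] at h8
    rw [e5, e2] at h11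
    rw [e1] at h4
    rw [mul_add]
    beta_reduce
    omega

theorem good_wall (m W : ℕ) (H : ℕ → ℕ) (hm : 1 ≤ m)
    (hanti : ∀ y, y + 1 < W → H (y + 1) ≤ H y)
    (hdrop : ∀ y, y + 1 < W → H y ≤ H (y + 1) + 2) (hW : 3 * m ^ 2 ≤ W)
    (hmin : 3 * m ^ 2 ≤ H (W - 1)) (h0 : 50 * m ^ 3 ≤ H 0) : Good m (rowsD W H) :=
  profile_gen m hm _ H (hyp_wall m W H hm hanti hdrop hW hmin h0)

theorem good_corner (m W k : ℕ) (H : ℕ → ℕ) (hm : 1 ≤ m) (hk : 1 ≤ k) (hk9 : k ≤ 9)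
    (hanti : ∀ y, y + 1 < W → H (y + 1) ≤ H y)
    (hdrop : ∀ y, y + 1 < W → H y ≤ H (y + 1) + 2) (hWk : k * (4 * m ^ 2) ≤ W)
    (hc : ∀ y < W, W ≤ y + k * (4 * m ^ 2) → H y = (W - y + k - 1) / k)
    (h0 : 50 * m ^ 3 ≤ H 0) : Good m (rowsD W H) :=
  profile_gen m hm _ H (hyp_corner m W k H hm hk hk9 hanti hdrop hWk hc h0)

theorem good_P2 (m d : ℕ) (hm : 1 ≤ m) (hd : 10 * m ^ 3 ≤ d) : Good m (triD 0 d) :=
  profile_gen m hm _ _ (hyp_P2 m d hm hd)

end Pool.Agent.Helper39.Ah
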